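import Mathlib
import Pool.Agent.H88.Nb5

namespace Pool.Agent.Results.MP_4dc88f_an.No

open Finsupp

theorem result (p : ℝ) (hp : 0 < p) (hp1 : p < 1) (M : Type) [MetricSpace M] (o : M)
    (δ : M → ({x : M // x ≠ o} →₀ ℝ)) (δ0 : δ o = 0)
    (δ1 : ∀ x : {x : M // x ≠ o}, δ x = Finsupp.single x 1)
    (F : Type) [AddCommGroup F] [Module ℝ F] (N : F → ℝ) (N0 : ∀ z, 0 ≤ N z)
    (N1 : ∀ z, N z = 0 ↔ z = 0) (N2 : ∀ (c : ℝ) (z : F), N (c • z) = |c| * N z)
    (N3 : ∀ z w, N (z + w) ^ p ≤ N z ^ p + N w ^ p)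
    (ι : ({x : M // x ≠ o} →₀ ℝ) →ₗ[ℝ] F)
    (iso : ∀ μ, IsGLB {t : ℝ | ∃ (n : ℕ) (a : Fin n → ℝ) (x y : Fin n → M),
      μ = ∑ i, a i • (δ (x i) - δ (y i)) ∧
        t = (∑ i, |a i| ^ p * dist (x i) (y i) ^ p) ^ (1 / p)} (N (ι μ)))
    (dense : ∀ z : F, ∀ ε > 0, ∃ μ, N (z - ι μ) < ε)
    (X : Type) [NormedAddCommGroup X] [NormedSpace ℝ X] (T : X →ₗ[ℝ] F) (c C : ℝ) (hc : 0 < c)
    (hT : ∀ x, c * ‖x‖ ≤ N (T x) ∧ N (T x) ≤ C * ‖x‖) : FiniteDimensional ℝ X := by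
  let Γ : ({x : M // x ≠ o} →₀ ℝ) →ₗ[ℝ] (M →₀ ℝ) :=
    linearCombination ℝ fun x => single x.1 1 - single o 1
  have g1 : ∀ x, Γ (δ x) = single x 1 - single o 1 := fun x => by
    by_cases h : x = o
    · simp [h, δ0]
    · simp [δ1 ⟨x, h⟩, Γ]
  have g2 : ∀ μ : M →₀ ℝ, Γ (linearCombination ℝ δ μ) =
      μ - linearCombination ℝ (fun _ => (1 : ℝ)) μ • single o 1 := fun μ => by
    induction μ using Finsupp.induction_linear with
    | zero => simp
    | add a b ha hb => rw [map_add, map_add, ha, hb, map_add, add_smul]; abel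
    | single e a => simp [g1, smul_sub]
  have g3 : ∀ ν, linearCombination ℝ δ (Γ ν) = ν ∧
      linearCombination ℝ (fun _ => (1 : ℝ)) (Γ ν) = 0 := fun ν => by
    induction ν using Finsupp.induction_linear with
    | zero => simp
    | add a b ha hb => simp [ha, hb]
    | single e a => simp [Γ, δ0, δ1]
  refine H88.Nb.main hp hp1 N (ι ∘ₗ linearCombination ℝ δ) N0 N1 N2 N3 (fun μ hμ => ⟨?_, ?_⟩)
    (fun z ε hε => ?_) T hc hT
  · rintro _ ⟨n, a, x, y, e, rfl⟩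
    have := (iso (linearCombination ℝ δ μ)).1 ⟨n, a, x, y, by simp [e], rfl⟩
    rw [one_div] at this
    exact (Real.rpow_le_rpow (N0 _) this hp.le).trans_eq
      (Real.rpow_inv_rpow (by positivity) hp.ne')
  · intro b hb
    rcases le_total b 0 with h | h
    · exact h.trans (Real.rpow_nonneg (N0 _) _)
    rw [← Real.rpow_inv_rpow h hp.ne']
    refine Real.rpow_le_rpow (by positivity) ((iso _).2 ?_) hp.le
    rintro _ ⟨n, a, x, y, e, rfl⟩
    rw [one_div]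
    refine Real.rpow_le_rpow h (hb ⟨n, a, x, y, ?_, rfl⟩) (by positivity)
    have := congrArg Γ e
    rw [g2, show linearCombination ℝ (fun _ => (1 : ℝ)) μ = 0 by
      simpa [linearCombination_apply] using hμ] at this
    simpa [g1] using this
  · obtain ⟨ν, h⟩ := dense z ε hε
    exact ⟨Γ ν, by simpa [linearCombination_apply] using (g3 ν).2, by simpa [(g3 ν).1] using h⟩

end Pool.Agent.Results.MP_4dc88f_an.No
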